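import Pool.Agent.H23.BootUp

namespace Pool.Agent.Results.MP_7332c2_co.PendantWheel

open Pool.Agent.H23.Boot

lemma wheel_conn : wheel.Connected := by
  refine SimpleGraph.Connected.mk fun a b => ?_
  have h : ∀ a : Fin 7, wheel.Reachable a 6 := by
    intro a
    by_cases ha : a = 6
    · rw [ha]
    · exact SimpleGraph.Adj.reachable ⟨ha, Or.inr (Or.inl rfl)⟩
  exact (h a).trans (h b).symm

lemma unbounded (C N : ℕ) : ∃ n ≥ N, C < maxTime (plus wheel 6) n := by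
  have hp : 0 < 5 ^ C := by positivity
  refine ⟨4 * (5 ^ C + N) + 4, by omega, ?_⟩
  have h := wp_lower (n := 4 * (5 ^ C + N) + 4) (k := 5 ^ C + N) (by omega)
  by_contra hcon
  have h2 : 5 ^ maxTime wp (4 * (5 ^ C + N) + 4) ≤ 5 ^ C :=
    Nat.pow_le_pow_right (by norm_num) (not_lt.1 hcon)
  omega

lemma upper {n : ℕ} (hn : 12 ≤ n) : maxTime (plus wheel 6) n ≤ Nat.log 5 n + 46 := by
  apply maxTime_le
  intro G
  have := wp_upper (V := Fin n) (by simpa using hn) G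
  simpa using this

lemma sq_le (m : ℕ) : m * m ≤ 5 ^ m := by
  have h : m < 2 ^ m := Nat.lt_two_pow_self
  calc m * m ≤ 2 ^ m * 2 ^ m := Nat.mul_le_mul h.le h.le
    _ = 4 ^ m := by rw [← mul_pow]; norm_num
    _ ≤ 5 ^ m := Nat.pow_le_pow_left (by norm_num) m

theorem full :
    (¬ ∀ (k : ℕ) (H : SimpleGraph (Fin k)), H.Connected → ∀ u : Fin k,
      (∃ C N : ℕ, ∀ n ≥ N, maxTime (plus H u) n ≤ C) ∨
      (∃ c C : ℝ, 0 < c ∧ c ≤ C ∧ ∃ N : ℕ, ∀ n ≥ N,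
        c * (maxTime H n : ℝ) ≤ maxTime (plus H u) n ∧
        (maxTime (plus H u) n : ℝ) ≤ C * maxTime H n)) ∧
    (wheel.Connected ∧
      (∀ n k : ℕ, 5 * k + 1 < n → k ≤ maxTime wheel n) ∧
      (∀ n k : ℕ, 4 * k + 3 < n → 4 * k + 1 ≤ 5 ^ maxTime (plus wheel 6) n) ∧
      (∀ n : ℕ, 12 ≤ n → maxTime (plus wheel 6) n ≤ Nat.log 5 n + 46)) := by
  refine ⟨fun h => ?_, wheel_conn, fun n k hk => wheel_lower hk, fun n k hk => wp_lower hk,
    fun n hn => upper hn⟩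
  rcases h 7 wheel wheel_conn 6 with ⟨C, N, hC⟩ | ⟨c, C, hc, -, N, hN⟩
  · obtain ⟨n, hn, hlt⟩ := unbounded C N
    exact absurd (hC n hn) (not_le.2 hlt)
  · obtain ⟨m0, hm0⟩ := exists_nat_gt (50 / c)
    obtain ⟨m, hm⟩ : ∃ m, m = m0 + N + 1 := ⟨_, rfl⟩
    have hmm : m < 5 ^ m := Nat.lt_pow_self (by norm_num)
    have h1 := (hN (5 * 5 ^ m + 2) (by omega)).1
    have h2 := wheel_lower (n := 5 * 5 ^ m + 2) (k := 5 ^ m) (by omega)
    have h3 := upper (n := 5 * 5 ^ m + 2) (by omega)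
    have h4 : Nat.log 5 (5 * 5 ^ m + 2) < m + 2 := by
      apply Nat.log_lt_of_lt_pow (by omega)
      have : 5 ^ (m + 2) = 25 * 5 ^ m := by ring
      rw [this]
      have hp : 0 < 5 ^ m := by positivity
      generalize 5 ^ m = q at hp ⊢
      omega
    have h5 : ((m * m : ℕ) : ℝ) ≤ maxTime wheel (5 * 5 ^ m + 2) := by
      exact_mod_cast (sq_le m).trans h2
    have h6 : (maxTime (plus wheel 6) (5 * 5 ^ m + 2) : ℝ) ≤ m + 48 := by
      exact_mod_cast (show maxTime (plus wheel 6) (5 * 5 ^ m + 2) ≤ m + 48 by omega)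
    have h7 : (50 : ℝ) < c * m := by
      rw [div_lt_iff₀ hc] at hm0
      have : (m0 : ℝ) ≤ m := by exact_mod_cast (show m0 ≤ m by omega)
      nlinarith
    have h8 : (1 : ℝ) ≤ m := by exact_mod_cast (show 1 ≤ m by omega)
    push_cast at h5
    have h9 : c * (m * m) ≤ c * maxTime wheel (5 * 5 ^ m + 2) := mul_le_mul_of_nonneg_left h5 hc.le
    nlinarith

theorem result :
    ¬ ∀ (k : ℕ) (H : SimpleGraph (Fin k)), H.Connected → ∀ u : Fin k,
      (∃ C N : ℕ, ∀ n ≥ N, maxTime (plus H u) n ≤ C) ∨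
      (∃ c C : ℝ, 0 < c ∧ c ≤ C ∧ ∃ N : ℕ, ∀ n ≥ N,
        c * (maxTime H n : ℝ) ≤ maxTime (plus H u) n ∧
        (maxTime (plus H u) n : ℝ) ≤ C * maxTime H n) :=
  full.1

end Pool.Agent.Results.MP_7332c2_co.PendantWheel
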